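import Pool.Agent.Q289.OP.Stm2

/-!
# Project OP (helper289), job SYM: symmetric functions do not see the conditioning
-/

set_option autoImplicit false

namespace Pool.Agent.Q25.OP

open MeasureTheory Set Filter Topology
open scoped ENNReal

section

variable (ι : Type) [Fintype ι] [DecidableEq ι] [PartialOrder ι]

/-- the monotone enumerations -/
noncomputable def Lx : Type := {f : ι ≃ Fin (Fintype.card ι) // Monotone f}

theorem lx_pos : ∃ f : ι ≃ Fin (Fintype.card ι), Monotone f := by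
  classical
  let _ : Fintype (LinearExtension ι) := inferInstanceAs (Fintype ι)
  have hc : Fintype.card (LinearExtension ι) = Fintype.card ι := rfl
  let e := (Fintype.orderIsoFinOfCardEq (LinearExtension ι) hc).symm
  exact ⟨e.toEquiv, fun a b hab => e.monotone (toLinearExtension.monotone hab)⟩

theorem ae_inj : ∀ᵐ x : ι → ℝ, Function.Injective x := by
  have h : ∀ p : ι × ι, p.1 ≠ p.2 → ∀ᵐ x : ι → ℝ, x p.1 ≠ x p.2 := by
    intro p hp
    let s : Submodule ℝ (ι → ℝ) :=
      LinearMap.ker (LinearMap.proj (R := ℝ) (φ := fun _ : ι => ℝ) p.1 - LinearMap.proj p.2)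
    have hs : s ≠ ⊤ := by
      intro h
      have h1 : (Pi.single p.1 (1 : ℝ) : ι → ℝ) ∈ s := by rw [h]; trivial
      simp only [s, LinearMap.mem_ker, LinearMap.sub_apply, LinearMap.proj_apply,
        Pi.single_eq_same, Pi.single_eq_of_ne hp.symm, sub_zero] at h1
      exact one_ne_zero h1
    have h0 := Measure.addHaar_submodule (volume : Measure (ι → ℝ)) s hs
    rw [ae_iff]
    refine measure_mono_null (fun x hx => ?_) h0
    simp only [ne_eq, not_not, Set.mem_ofPred_eq] at hx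
    simp only [s, SetLike.mem_coe, LinearMap.mem_ker, LinearMap.sub_apply, LinearMap.proj_apply]
    linarith
  have h2 : ∀ᵐ x : ι → ℝ, ∀ p : ι × ι, p.1 ≠ p.2 → x p.1 ≠ x p.2 := by
    rw [ae_all_iff]
    intro p
    by_cases hp : p.1 = p.2
    · exact Eventually.of_forall fun x h => absurd hp h
    · filter_upwards [h p hp] with x hx _ using hx
  filter_upwards [h2] with x hx
  intro a b hab
  by_contra hne
  exact hx (a, b) hne hab

open Classical in
theorem count (x : ι → ℝ) (hx : Function.Injective x) :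
    (Finset.univ.filter fun σ : Equiv.Perm ι => Monotone (x ∘ σ)).card =
      (Finset.univ.filter fun f : ι ≃ Fin (Fintype.card ι) => Monotone f).card := by
  have hc : (Finset.univ.image x).card = Fintype.card ι := by
    rw [Finset.card_image_of_injective _ hx, Finset.card_univ]
  let o := (Finset.univ.image x).orderIsoOfFin hc
  let g : ι ≃ (Finset.univ.image x : Finset ℝ) :=
    Equiv.ofBijective (fun i => ⟨x i, Finset.mem_image_of_mem _ (Finset.mem_univ _)⟩) (by
      constructor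
      · intro i j hij
        exact hx (congrArg Subtype.val hij)
      · rintro ⟨y, hy⟩
        obtain ⟨i, _, rfl⟩ := Finset.mem_image.1 hy
        exact ⟨i, rfl⟩)
  let e : ι ≃ Fin (Fintype.card ι) := g.trans o.symm.toEquiv
  have he : ∀ i j, e i ≤ e j ↔ x i ≤ x j := by
    intro i j
    have : e i ≤ e j ↔ g i ≤ g j := o.symm.le_iff_le
    rw [this]
    rfl
  refine Finset.card_bij (fun σ _ => (σ.trans e : ι ≃ Fin (Fintype.card ι))) ?_ ?_ ?_
  · intro σ hσ
    rw [Finset.mem_filter] at hσ ⊢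
    exact ⟨Finset.mem_univ _, fun i j hij => (he _ _).2 (hσ.2 hij)⟩
  · intro σ _ τ _ h
    ext i
    have := congrFun (congrArg DFunLike.coe h) i
    exact e.injective this
  · intro f hf
    rw [Finset.mem_filter] at hf
    refine ⟨f.trans e.symm, ?_, ?_⟩
    · rw [Finset.mem_filter]
      refine ⟨Finset.mem_univ _, fun i j hij => ?_⟩
      apply (he _ _).1
      simp only [Function.comp_apply, Equiv.trans_apply, Equiv.apply_symm_apply]
      exact hf.2 hij
    · ext i
      simp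

theorem meas_mono (σ : Equiv.Perm ι) : MeasurableSet {x : ι → ℝ | Monotone (x ∘ σ)} := by
  have : {x : ι → ℝ | Monotone (x ∘ σ)} = ⋂ (i : ι) (j : ι) (_ : i ≤ j), {x | x (σ i) ≤ x (σ j)} := by
    ext x
    simp only [Set.mem_ofPred_eq, Set.mem_iInter]
    rfl
  rw [this]
  exact MeasurableSet.iInter fun i => MeasurableSet.iInter fun j => MeasurableSet.iInter fun _ =>
    measurableSet_le (measurable_pi_apply _) (measurable_pi_apply _)

theorem one (G : (ι → ℝ) → ℝ≥0∞) (hG : ∀ (σ : Equiv.Perm ι) (x : ι → ℝ), G (x ∘ σ) = G x)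
    (σ : Equiv.Perm ι) :
    ∫⁻ x in {x : ι → ℝ | Monotone (x ∘ σ)}, G x = ∫⁻ x in {x : ι → ℝ | Monotone x}, G x := by
  have hT := volume_measurePreserving_piCongrLeft (fun _ : ι => ℝ) (σ.symm : Equiv.Perm ι)
  have hTx : ∀ x : ι → ℝ, MeasurableEquiv.piCongrLeft (fun _ : ι => ℝ) (σ.symm : Equiv.Perm ι) x =
      x ∘ σ := by
    intro x
    ext i
    have := Equiv.piCongrLeft_apply_apply (P := fun _ : ι => ℝ) (e := (σ.symm : Equiv.Perm ι)) x (σ i)
    rw [Equiv.symm_apply_apply] at this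
    exact this
  have h1 := hT.setLIntegral_comp_preimage_emb
    (MeasurableEquiv.piCongrLeft (fun _ : ι => ℝ) (σ.symm : Equiv.Perm ι)).measurableEmbedding
    G {x : ι → ℝ | Monotone x}
  rw [← h1]
  have h2 : (MeasurableEquiv.piCongrLeft (fun _ : ι => ℝ) (σ.symm : Equiv.Perm ι)) ⁻¹'
      {x : ι → ℝ | Monotone x} = {x : ι → ℝ | Monotone (x ∘ σ)} := by
    ext x
    rw [Set.mem_preimage, hTx]
    rfl
  rw [h2]
  refine lintegral_congr fun x => ?_
  rw [hTx, hG]

theorem sym0 : ∃ κ : ℝ≥0∞, κ ≠ 0 ∧ κ ≠ ⊤ ∧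
    ∀ G : (ι → ℝ) → ℝ≥0∞, Measurable G → (∀ (σ : Equiv.Perm ι) (x : ι → ℝ), G (x ∘ σ) = G x) →
    ∫⁻ x in {x : ι → ℝ | Monotone x}, G x = κ * ∫⁻ x, G x := by
  classical
  set L : ℕ := (Finset.univ.filter fun f : ι ≃ Fin (Fintype.card ι) => Monotone f).card with hL
  have hLp : 0 < L := by
    rw [hL, Finset.card_pos]
    obtain ⟨f, hf⟩ := lx_pos ι
    exact ⟨f, by rw [Finset.mem_filter]; exact ⟨Finset.mem_univ _, hf⟩⟩
  set n : ℕ := Fintype.card (Equiv.Perm ι) with hn
  have hnp : 0 < n := Fintype.card_pos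
  have hn0 : (n : ℝ≥0∞) ≠ 0 := by exact_mod_cast hnp.ne'
  have hnt : (n : ℝ≥0∞) ≠ ⊤ := ENNReal.natCast_ne_top n
  refine ⟨(L : ℝ≥0∞) / n, ?_, ?_, ?_⟩
  · exact ENNReal.div_ne_zero.2 ⟨by exact_mod_cast hLp.ne', hnt⟩
  · exact ENNReal.div_ne_top (ENNReal.natCast_ne_top L) hn0
  intro G hGm hG
  have h1 : ∑ σ : Equiv.Perm ι, ∫⁻ x in {x : ι → ℝ | Monotone (x ∘ σ)}, G x =
      n * ∫⁻ x in {x : ι → ℝ | Monotone x}, G x := by
    rw [Finset.sum_congr rfl fun σ _ => one ι G hG σ, Finset.sum_const, Finset.card_univ,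
      nsmul_eq_mul]
  have h2 : ∑ σ : Equiv.Perm ι, ∫⁻ x in {x : ι → ℝ | Monotone (x ∘ σ)}, G x =
      L * ∫⁻ x, G x := by
    have h3 : ∀ σ : Equiv.Perm ι, ∫⁻ x in {x : ι → ℝ | Monotone (x ∘ σ)}, G x =
        ∫⁻ x, {x : ι → ℝ | Monotone (x ∘ σ)}.indicator G x :=
      fun σ => (lintegral_indicator (meas_mono ι σ) G).symm
    rw [Finset.sum_congr rfl fun σ _ => h3 σ, ← lintegral_finsetSum _ fun σ _ =>
      hGm.indicator (meas_mono ι σ), ← lintegral_const_mul _ hGm]
    refine lintegral_congr_ae ?_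
    filter_upwards [ae_inj ι] with x hx
    have h4 : ∀ σ : Equiv.Perm ι, {x : ι → ℝ | Monotone (x ∘ σ)}.indicator G x =
        if Monotone (x ∘ σ) then G x else 0 := by
      intro σ
      by_cases h : Monotone (x ∘ σ)
      · rw [if_pos h, Set.indicator_of_mem (by exact h)]
      · rw [if_neg h, Set.indicator_of_notMem (by exact h)]
    rw [Finset.sum_congr rfl fun σ _ => h4 σ, ← Finset.sum_filter, Finset.sum_const,
      count ι x hx, nsmul_eq_mul]
  rw [ENNReal.mul_comm_div, ← mul_div_assoc]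
  rw [ENNReal.eq_div_iff hn0 hnt, ← h1, h2]

end

theorem sym : Q289.OP.S_SYM := by
  intro ι _ _ _
  exact sym0 ι

end Pool.Agent.Q25.OP
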